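import Pool.Agent.H642R2.TGPoly
import Pool.Agent.H642R2.TGMem

/-!
Three-gender stable marriage with lexicographically cyclic preferences is NP-hard.
-/

namespace Pool.Agent.Results.MP_28d887_lc.LexCyclicHard

open Pool.Agent.NPC Pool.Agent.NPC.TG

/-- `G` solves the search problem: on every lexicographically cyclic instance of size at least 3 it
outputs a stable matching, or `none` if there is none. -/
def Solves (G : Inst → Option (List (ℕ × ℕ × ℕ))) : Prop :=
  ∀ I, IsLexCyclic I → 3 ≤ size I →
    (∀ M, G I = some M → Stable I M) ∧ (G I = none → ¬ ∃ M, Stable I M)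

/-- Deciding whether a lexicographically cyclic instance has a stable matching is NP-complete: it
is in NP, and for every language `L` in NP there is a polynomial-time computable `f` producing
lexicographically cyclic instances of size at least 3 such that `x ∈ L` if and only if `f x` has a
stable matching, if and only if a solver of the search problem does not answer `none` on `f x`
(so the search problem is NP-hard, with a single call). In particular, if the search problem is
solvable in polynomial time then P = NP. -/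
theorem result :
    InNPP (fun I : Inst => IsLexCyclic I ∧ ∃ M, Stable I M) ∧
    (∀ L : Set (List Bool), InNP L → ∃ f : List Bool → Inst, PolyTime (fun x => bits (f x)) ∧
      (∀ x, IsLexCyclic (f x) ∧ 3 ≤ size (f x)) ∧ (∀ x, x ∈ L ↔ ∃ M, Stable (f x) M) ∧
      ∀ G, Solves G → ∀ x, x ∈ L ↔ G (f x) ≠ none) ∧
    ((∃ (G : Inst → Option (List (ℕ × ℕ × ℕ))) (g : List Bool → List Bool), Solves G ∧
      PolyTime g ∧ ∀ I, IsLexCyclic I → 3 ≤ size I → g (bits I) = bits (G I)) →
      ∀ L : Set (List Bool), InNP L → InP L) := by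
  have hard : HardPr (fun I => IsLexCyclic I ∧ 3 ≤ size I) (fun I => ∃ M, Stable I M) :=
    hardPr_SAT3b.trans poly_red (fun φ h => ⟨red_ok h.2.1 h.2.2, by
      have : 0 < φ.length := List.length_pos_iff.2 h.2.2
      unfold red
      rw [size_inst]
      unfold num
      omega⟩) (fun _ h => red_correct h.2.1 h.2.2)
  have key : ∀ L : Set (List Bool), InNP L → ∃ f : List Bool → Inst,
      PolyTime (fun x => bits (f x)) ∧ (∀ x, IsLexCyclic (f x) ∧ 3 ≤ size (f x)) ∧
      (∀ x, x ∈ L ↔ ∃ M, Stable (f x) M) ∧
      ∀ G, Solves G → ∀ x, x ∈ L ↔ G (f x) ≠ none := by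
    intro L hL
    obtain ⟨f, hf, hpr, hfL⟩ := hard L hL
    refine ⟨f, PC.toPolyTime hf, hpr, hfL, fun G hG x => ?_⟩
    rw [hfL x]
    obtain ⟨h1, h2⟩ := hG (f x) (hpr x).1 (hpr x).2
    constructor
    · intro h3 h4
      exact h2 h4 h3
    · intro h3
      obtain ⟨M, hM⟩ := Option.ne_none_iff_exists'.1 h3
      exact ⟨M, h1 M hM⟩
  refine ⟨inNPP_stable, key, ?_⟩
  rintro ⟨G, g, hG, hg, hgG⟩ L hL
  obtain ⟨f, hf, hpr, _, hfG⟩ := key L hL
  have h1 : PolyTime (fun x => g (bits (f x))) := Pool.Agent.H642R2.TMSim.polyTime_comp hg hf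
  have h2 : NPC.Poly (fun y : List Bool =>
      !decide (y = bits (none : Option (List (ℕ × ℕ × ℕ))))) :=
    NPC.Poly.not (NPC.Poly.decide_eq NPC.Poly.id (NPC.Poly.const _))
  refine ⟨_, polyTime_test h1 h2, fun x => ?_⟩
  rw [hfG G hG x]
  simp only [List.cons.injEq, and_true, Bool.not_eq_true', decide_eq_false_iff_not,
    hgG (f x) (hpr x).1 (hpr x).2]
  constructor
  · intro h h3; exact h (bits_injective h3)
  · intro h h3; rw [h3] at h; exact h rfl

end Pool.Agent.Results.MP_28d887_lc.LexCyclicHard
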